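import Pool.Agent.S7Pair.Main
import Pool.Agent.MP_d84343_gt.Ricci

/-!
# Commuting, everywhere linearly independent vector fields on the seven-sphere

Answer (yes) to Q1 of MP_59a324_gt: the closed manifold `S⁷`, the unit sphere of `ℝ⁸` with
Mathlib's manifold structure, carries a Riemannian metric of positive sectional curvature (the
round one) and two smooth vector fields with vanishing Lie bracket which are linearly independent
at every point.

The construction: on `S² × S³` the two explicit polynomial fields `fU`, `fW` (folder `S7Pair`,
file `Defs`) satisfy `[U,W] = -λ_U W + λ_W U`; multiplied by suitable functions and corrected by a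
rotation field they commute and are independent off two circles. After moving the two circles and
a gauge transformation the pair has a normal form near both of them, which makes it possible to
extend it to a commuting pair on `ℝ⁴ × S³`, independent everywhere and standard at infinity. Two
copies of this glue to `S⁷`.
-/

open scoped ContDiff Manifold InnerProductSpace
open VectorField Bundle Metric Module

namespace Pool.Agent.Results.MP_59a324_gt.SevenSphere

open Pool.Agent.MP_d84343_gt

section definitions

variable {V M : Type} [NormedAddCommGroup V] [NormedSpace ℝ V]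
  [TopologicalSpace M] [ChartedSpace V M] [IsManifold 𝓘(ℝ, V) ∞ M]

/-- The Riemannian metric `g` has positive sectional curvature: with `D` its Levi-Civita
connection and `R` the curvature tensor of `D`, one has `g(R(v,w)w, v) > 0` for all linearly
independent tangent vectors `v`, `w` at every point. (`g(R(v,w)w, v)` is the sectional curvature
of the plane spanned by `v`, `w` times the positive number `g(v,v)g(w,w) - g(v,w)²`.) -/
def HasPositiveSectionalCurvature (g : RiemMetric V M) : Prop :=
  ∃ D : Conn V M, IsLeviCivita g D ∧
    ∃ R : Π x : M, Trilin (TangentSpace 𝓘(ℝ, V) x), IsCurvature D R ∧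
      ∀ (x : M) (v w : TangentSpace 𝓘(ℝ, V) x), LinearIndependent ℝ ![v, w] →
        0 < gval g x (R x v w w) v

variable (V M)

/-- `M` carries two smooth vector fields `u`, `v` whose Lie bracket vanishes identically and which
are linearly independent at every point. -/
def CarriesCommutingPair : Prop :=
  ∃ u v : VF V M, SmoothVF u ∧ SmoothVF v ∧ (∀ x : M, mlieBracket 𝓘(ℝ, V) u v x = 0) ∧
    ∀ x : M, LinearIndependent ℝ ![u x, v x]

/-- `M`, a smooth manifold modelled on the finite dimensional space `V`, is closed (compact,
Hausdorff, without boundary) and connected, carries a smooth Riemannian metric of positive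
sectional curvature, and carries two commuting smooth vector fields which are linearly independent
at every point. -/
structure PositivelyCurvedWithCommutingPair : Prop where
  finiteDimensional : FiniteDimensional ℝ V
  compact : CompactSpace M
  hausdorff : T2Space M
  connected : ConnectedSpace M
  positive : ∃ g : RiemMetric V M, HasPositiveSectionalCurvature g
  pair : CarriesCommutingPair V M

end definitions

section round

variable {E : Type} [NormedAddCommGroup E] [InnerProductSpace ℝ E] {n : ℕ}
  [Fact (finrank ℝ E = n + 1)]

theorem hasPositiveSectional_round :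
    HasPositiveSectionalCurvature (V := EuclideanSpace ℝ (Fin n)) (M := sphere (0 : E) 1)
      (roundMetric E n) := by
  refine ⟨sphCov E n, isLeviCivita_round, rR, isCurvature_round, fun x v w hvw => ?_⟩
  have h1 : gval (V := EuclideanSpace ℝ (Fin n)) (M := sphere (0 : E) 1) (roundMetric E n) x
      (rR x v w w) v = rB x w w * rB x v v - rB x v w * rB x w v := by
    have h2 : rR x v w w = rB x w w • v - rB x v w • w := rfl
    change rB x (rR x v w w) v = _
    rw [h2, map_sub, map_smul, map_smul]
    rfl
  rw [h1, rB_apply, rB_apply, rB_apply, rB_apply]
  have hinj := iota_inj (E := E) (n := n) x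
  have h3 : LinearIndependent ℝ ![iota x v, iota x w] := by
    rw [LinearIndependent.pair_iff] at hvw ⊢
    intro a b hab
    apply hvw a b
    apply hinj
    rw [map_add, map_smul, map_smul, map_zero]
    exact hab
  generalize iota x v = p at h3
  generalize iota x w = q at h3
  have hq : q ≠ 0 := by
    have := h3.ne_zero 1
    simpa using this
  have hz : (‖q‖ ^ 2) • p - inner ℝ p q • q ≠ 0 := by
    intro h
    rw [LinearIndependent.pair_iff] at h3
    have h4 := h3 (‖q‖ ^ 2) (-inner ℝ p q) (by rw [neg_smul, ← sub_eq_add_neg]; exact h)
    have h5 : ‖q‖ = 0 := by simpa using h4.1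
    exact hq (norm_eq_zero.mp h5)
  have h4 : 0 < ‖(‖q‖ ^ 2) • p - inner ℝ p q • q‖ ^ 2 := by
    have := norm_pos_iff.mpr hz
    positivity
  rw [norm_sub_sq_real, real_inner_smul_left, real_inner_smul_right, norm_smul, norm_smul,
    mul_pow, mul_pow, Real.norm_eq_abs, Real.norm_eq_abs, sq_abs, sq_abs] at h4
  have h5 : 0 < ‖q‖ ^ 2 := by
    have := norm_pos_iff.mpr hq
    positivity
  have h6 : 0 < ‖q‖ ^ 2 * (‖p‖ ^ 2 * ‖q‖ ^ 2 - inner ℝ p q ^ 2) := by
    calc 0 < _ := h4
      _ = _ := by ring
  have h7 := (mul_pos_iff_of_pos_left h5).mp h6
  rw [real_inner_self_eq_norm_sq, real_inner_self_eq_norm_sq, real_inner_comm p q]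
  nlinarith [h7]

end round

/-- The unit sphere `S⁷` of `ℝ⁸` is a closed connected smooth manifold which carries a Riemannian
metric of positive sectional curvature and two smooth vector fields `u`, `v` with `[u,v] = 0`
which are linearly independent at every point. -/
theorem result :
    PositivelyCurvedWithCommutingPair (EuclideanSpace ℝ (Fin 7))
      (sphere (0 : EuclideanSpace ℝ (Fin 8)) 1) where
  finiteDimensional := inferInstance
  compact := inferInstance
  hausdorff := inferInstance
  connected := by
    apply isConnected_iff_connectedSpace.mp
    apply isConnected_sphere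
    · rw [rank_eq_card_basis (EuclideanSpace.basisFun (Fin 8) ℝ).toBasis]
      simp
    · exact zero_le_one
  positive := ⟨roundMetric (EuclideanSpace ℝ (Fin 8)) 7, hasPositiveSectional_round⟩
  pair := S7Pair.main_manifold

end Pool.Agent.Results.MP_59a324_gt.SevenSphere
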